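import Pool.Agent.Q252.FA9

/-!
# Small Farey sequences for the groups `Γ₀(pⁿ)`

`Pool.Agent.Q252.FareySymbol` (file `Pool/Agent/Q252/FareySym.lean`) is the combinatorial form
of a special polygon of Kulkarni with vertical sides over `0` and `1`: the cusps
`0/1 = a 0 / e 0 < a 1 / e 1 < ... < a m / e m = 1/1`, consecutive ones being Farey neighbours
(`a (i + 1) * e i - a i * e (i + 1) = 1`), and for each of the `m` intervals its type: a pair of
odd edges (`mate i = none`), an even edge paired with itself (`mate i = some i`) or with the even
edge of the interval `j` (`mate i = some j` and `mate j = some i`). `FareySymbol.group` is the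
subgroup of `SL(2, ℤ)` generated by `-1` and the side pairings, that is `z ↦ z + 1`, the
rotations of order three about the common vertices of the two odd edges of an interval, and the
elements carrying an even edge onto its mate and the polygon to the other side of the mate.

The theorem: for every odd prime `p` and every `n ≥ 3` there is such a polygon whose side
pairings generate `Γ₀(pⁿ)`, all of whose cusps in `[0, 1]` have denominator at most `p^(n-1)`.
-/

open Pool.Agent.Q252

namespace Pool.Agent.Results.MP_f9e819_nt.SmallFareySequences

theorem result : ∀ p n : ℕ, p.Prime → p ≠ 2 → 3 ≤ n →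
    ∃ F : FareySymbol, F.group = CongruenceSubgroup.Gamma0 (p ^ n) ∧
      ∀ i ≤ F.m, F.e i ≤ (p : ℤ) ^ (n - 1) :=
  fun _ _ hp hp2 hn => Pool.Agent.Q252.FA.main hp hp2 hn

end Pool.Agent.Results.MP_f9e819_nt.SmallFareySequences
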